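import Mathlib.Logic.Equiv.Fintype
import Mathlib.Data.Finset.Powerset
import Mathlib.Data.Fintype.BigOperators
import Mathlib.Data.Fintype.Prod
import Mathlib.Data.Fintype.Sum
import Mathlib.Data.Fintype.Powerset
import Mathlib.Data.Nat.Choose.Bounds
import Mathlib.Algebra.Order.BigOperators.Group.Finset
import Mathlib.Tactic

/-! Hypergraphs whose edges are the sets with three vertices in a common class. -/

set_option autoImplicit false

namespace Pool.Agent.MP_038f7f_co.H11

open Finset

variable {α β ι ι' V κ : Type}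

/-- `G` contains a copy of `F` -/
def Copy (F : Finset (Finset α)) (G : Finset (Finset V)) : Prop :=
  ∃ f : α ↪ V, ∀ e ∈ F, e.map f ∈ G

/-- three vertices of `e` lie in one class -/
def Good (cl : α → ι) (e : Finset α) : Prop :=
  ∃ T ⊆ e, T.card = 3 ∧ ∀ a ∈ T, ∀ b ∈ T, cl a = cl b

/-- all `r`-sets with three vertices in one class are sent to edges -/
def Full (r : ℕ) (G : Finset (Finset V)) (f : α ↪ V) (cl : α → ι) : Prop :=
  ∀ e : Finset α, e.card = r → Good cl e → e.map f ∈ G

lemma Good.map {cl : α → ι} {cl' : β → ι'} {e : Finset α} (h : Good cl e) (g : α ↪ β)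
    (hg : ∀ a b, cl a = cl b → cl' (g a) = cl' (g b)) : Good cl' (e.map g) := by
  obtain ⟨T, h1, h2, h3⟩ := h
  refine ⟨T.map g, map_subset_map.2 h1, by rwa [card_map], fun a ha b hb => ?_⟩
  obtain ⟨a', ha', rfl⟩ := mem_map.1 ha
  obtain ⟨b', hb', rfl⟩ := mem_map.1 hb
  exact hg _ _ (h3 a' ha' b' hb')

lemma Full.comp {r : ℕ} {G : Finset (Finset V)} {f : β ↪ V} {cl : α → ι} {cl' : β → ι'}
    (h : Full r G f cl') (g : α ↪ β) (hg : ∀ a b, cl a = cl b → cl' (g a) = cl' (g b)) :
    Full r G (g.trans f) cl := fun e h1 h2 => by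
  rw [← map_map]
  exact h _ (by rwa [card_map]) (h2.map g hg)

/-- a vertex of a good set can be exchanged -/
lemma Good.swap [Fintype α] [DecidableEq α] [DecidableEq ι] {cl : α → ι} {e : Finset α}
    (h : Good cl e) (hc : ∀ a, 4 ≤ (univ.filter fun b => cl b = cl a).card)
    (he : e.card < Fintype.card α) {u : α} (hu : u ∈ e) :
    ∃ e', e'.card = e.card ∧ Good cl e' ∧ e' ≠ e ∧ e.erase u ⊆ e' := by
  obtain ⟨T, h1, h2, h3⟩ := h
  have key : ∀ w, w ∉ e → Good cl (insert w (e.erase u)) →
      ∃ e', e'.card = e.card ∧ Good cl e' ∧ e' ≠ e ∧ e.erase u ⊆ e' := fun w hw hg =>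
    ⟨_, by
      rw [card_insert_of_notMem fun h => hw (mem_of_mem_erase h), card_erase_add_one hu], hg,
      fun h => hw (h ▸ mem_insert_self _ _), subset_insert _ _⟩
  obtain ⟨a, ha⟩ := card_pos.1 (by omega : 0 < T.card)
  by_cases hw : ∃ w, w ∉ e ∧ cl w = cl a
  · obtain ⟨w, h4, h5⟩ := hw
    by_cases huT : u ∈ T
    · refine key w h4 ⟨insert w (T.erase u), insert_subset_insert _ (erase_subset_erase _ h1),
        ?_, ?_⟩
      · rw [card_insert_of_notMem fun h => h4 (h1 (mem_of_mem_erase h)), card_erase_add_one huT, h2]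
      · have : ∀ x ∈ insert w (T.erase u), cl x = cl a := fun x hx => by
          rcases mem_insert.1 hx with rfl | hx
          · exact h5
          · exact h3 x (mem_of_mem_erase hx) a ha
        exact fun x hx y hy => (this x hx).trans (this y hy).symm
    · exact key w h4 ⟨T, fun x hx => mem_insert_of_mem
        (mem_erase.2 ⟨fun h => huT (h ▸ hx), h1 hx⟩), h2, h3⟩
  · obtain ⟨w, -, h4⟩ := exists_mem_notMem_of_card_lt_card (s := e) (t := univ) he
    obtain ⟨T', h5, h6⟩ := exists_subset_card_eq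
      (s := (univ.filter fun b => cl b = cl a).erase u) (n := 3) (by
        have := hc a
        have := pred_card_le_card_erase (s := univ.filter fun b => cl b = cl a) (a := u)
        omega)
    have h7 : ∀ x ∈ T', x ≠ u ∧ cl x = cl a := fun x hx => by simpa using h5 hx
    refine key w h4 ⟨T', fun x hx => mem_insert_of_mem (mem_erase.2 ⟨(h7 x hx).1, ?_⟩), h6,
      fun x hx y hy => (h7 x hx).2.trans (h7 y hy).2.symm⟩
    by_contra h8
    exact hw ⟨x, h8, (h7 x hx).2⟩

/-- the model hypergraph on `κ × Fin 8` -/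
noncomputable def model (r : ℕ) (κ : Type) [Fintype κ] : Finset (Finset (κ × Fin 8)) := by
  classical exact univ.filter fun e => e.card = r ∧ Good Prod.fst e

lemma mem_model {r : ℕ} [Fintype κ] {e : Finset (κ × Fin 8)} :
    e ∈ model r κ ↔ e.card = r ∧ Good Prod.fst e := by
  simp [model]

lemma card_fib [Fintype α] [DecidableEq κ] (f : α ↪ κ × Fin 8) (b : κ) :
    (univ.filter fun a => (f a).1 = b).card ≤ 8 := by
  refine le_trans (card_le_card_of_injOn (t := (univ : Finset (Fin 8))) (fun a => (f a).2)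
    (fun _ _ => mem_univ _) ?_) (by simp)
  intro a ha a' ha' e
  exact f.injective (Prod.ext ((mem_filter.1 ha).2.trans (mem_filter.1 ha').2.symm) e)

/-- in the model every class of a large full system lies in one block -/
lemma force [Fintype α] [Fintype κ] [DecidableEq ι] {q : ℕ} {f : α ↪ κ × Fin 8} {cl : α → ι}
    (h : Full (q + 3) (model (q + 3) κ) f cl) (hα : 8 * (q + 3) ≤ Fintype.card α)
    (hc : ∀ a, 4 ≤ (univ.filter fun b => cl b = cl a).card) {a b : α} (hab : cl a = cl b) :
    (f a).1 = (f b).1 := by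
  classical
  by_contra hne
  have hne' : a ≠ b := fun e => hne (e ▸ rfl)
  obtain ⟨c, hc1, hc2⟩ := exists_mem_notMem_of_card_lt_card (s := {a, b})
    (t := univ.filter fun x => cl x = cl a) (by
      have := hc a
      have := card_le_two (a := a) (b := b)
      omega)
  have hc3 : c ≠ a ∧ c ≠ b := by simpa using hc2
  let T : Finset α := {a, b, c}
  have hT : T.card = 3 := card_eq_three.2 ⟨a, b, c, hne', hc3.1.symm, hc3.2.symm, rfl⟩
  let g : α → κ := fun x => (f x).1
  have h1 : Fintype.card α ≤ 8 * (univ.image g).card :=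
    card_le_mul_card_image univ 8 fun b _ => card_fib f b
  obtain ⟨J, hJ1, hJ2⟩ := exists_subset_card_eq (s := univ.image g \ T.image g) (n := q) (by
    have := le_card_sdiff (T.image g) (univ.image g)
    have := card_image_le (s := T) (f := g)
    omega)
  have : Nonempty α := ⟨a⟩
  let s : κ → α := Function.invFun g
  have hs : ∀ j ∈ J, g (s j) = j := fun j hj => Function.invFun_eq (by
    obtain ⟨x, -, hx⟩ := mem_image.1 (mem_sdiff.1 (hJ1 hj)).1
    exact ⟨x, hx⟩)
  have hs' : ∀ j ∈ J, ∀ x ∈ T, g x ≠ j := fun j hj x hx e =>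
    (mem_sdiff.1 (hJ1 hj)).2 (mem_image.2 ⟨x, hx, e⟩)
  have hd : Disjoint T (J.image s) := disjoint_left.2 fun x hx hx' => by
    obtain ⟨j, hj, rfl⟩ := mem_image.1 hx'
    exact hs' j hj _ hx (hs j hj)
  have h2 := h (T ∪ J.image s) (by
    rw [card_union_of_disjoint hd, hT, card_image_of_injOn fun j hj j' hj' e => by
      rw [← hs j hj, e, hs j' hj'], hJ2, add_comm]) ⟨T, subset_union_left, hT, by
    have : ∀ x ∈ T, cl x = cl a := by
      simp only [T, mem_insert, mem_singleton]
      rintro x (rfl | rfl | rfl)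
      · rfl
      · exact hab.symm
      · exact (mem_filter.1 hc1).2
    exact fun x hx y hy => (this x hx).trans (this y hy).symm⟩
  obtain ⟨T', h3, h4, h5⟩ := (mem_model.1 h2).2
  obtain ⟨T'', h6, rfl⟩ := subset_map_iff.1 h3
  rw [card_map] at h4
  have h7 : ∀ x ∈ T'', ∀ y ∈ T'', g x = g y := fun x hx y hy =>
    h5 _ (mem_map_of_mem f hx) _ (mem_map_of_mem f hy)
  have h8 : T'' ⊆ T := fun x hx => by
    refine (mem_union.1 (h6 hx)).resolve_right fun hx' => ?_
    obtain ⟨j, hj, rfl⟩ := mem_image.1 hx'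
    obtain ⟨y, hy, hy'⟩ := exists_mem_ne (by omega : 1 < T''.card) (s j)
    rcases mem_union.1 (h6 hy) with h9 | h9
    · exact hs' j hj y h9 ((h7 y hy _ hx).trans (hs j hj))
    · obtain ⟨j', hj', rfl⟩ := mem_image.1 h9
      have := h7 _ hy _ hx
      rw [hs j hj, hs j' hj'] at this
      exact hy' (this ▸ rfl)
  rw [eq_of_subset_of_card_le h8 (by omega)] at h7
  exact hne (h7 a (by simp [T]) b (by simp [T]))

/-- three anchors in one block bring their followers with them -/
lemma nogood [Fintype α] [DecidableEq α] {f : α ↪ κ × Fin 8} {an : α → α}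
    (h : ∀ a, (f (an a)).1 = (f a).1) {e : Finset α} (hg : Good Prod.fst (e.map f)) :
    ∃ T ⊆ e, T.card = 3 ∧ ∑ i ∈ T, (univ.filter fun a => an a = i).card ≤ 8 := by
  classical
  obtain ⟨T', h3, h4, h5⟩ := hg
  obtain ⟨T, h6, rfl⟩ := subset_map_iff.1 h3
  rw [card_map] at h4
  obtain ⟨a, ha⟩ := card_pos.1 (by omega : 0 < T.card)
  refine ⟨T, h6, h4, ?_⟩
  rw [← card_biUnion fun i _ j _ hij => disjoint_left.2 fun x h1 h2 =>
    hij ((mem_filter.1 h1).2.symm.trans (mem_filter.1 h2).2)]
  refine le_trans (card_le_card fun x hx => ?_) (card_fib f (f a).1)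
  obtain ⟨i, hi, hx⟩ := mem_biUnion.1 hx
  refine mem_filter.2 ⟨mem_univ _, ?_⟩
  rw [← h x, (mem_filter.1 hx).2]
  exact h5 _ (mem_map_of_mem f hi) _ (mem_map_of_mem f ha)

lemma ext_emb [Fintype α] [DecidableEq κ] (g : α → κ)
    (hg : ∀ b, (univ.filter fun a => g a = b).card ≤ 8) (S : Finset α) (φ : α → κ × Fin 8)
    (h1 : Set.InjOn φ S) (h2 : ∀ a ∈ S, (φ a).1 = g a) :
    ∃ f : α ↪ κ × Fin 8, (∀ a, (f a).1 = g a) ∧ ∀ a ∈ S, f a = φ a := by
  have key : ∀ b, ∃ e : {a // g a = b} ↪ Fin 8, ∀ a, a.1 ∈ S → e a = (φ a.1).2 := by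
    intro b
    obtain ⟨e⟩ : Nonempty ({a // g a = b} ↪ Fin 8) := Function.Embedding.nonempty_of_card_le (by
      rw [Fintype.card_subtype, Fintype.card_fin]
      exact hg b)
    obtain ⟨τ, hτ⟩ := Equiv.Perm.exists_extending_pair
      (f := fun a : {a : {a // g a = b} // a.1 ∈ S} => e a.1) (g := fun a => (φ a.1.1).2)
      (fun a a' h => Subtype.ext (e.injective h)) fun a a' h =>
        Subtype.ext (Subtype.ext (h1 a.2 a'.2 (Prod.ext (by
          rw [h2 _ a.2, h2 _ a'.2, a.1.2, a'.1.2]) h)))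
    exact ⟨e.trans τ.toEmbedding, fun a ha => hτ ⟨a, ha⟩⟩
  choose e he using key
  refine ⟨⟨fun a => (g a, e (g a) ⟨a, rfl⟩), fun a a' h => ?_⟩, fun _ => rfl, fun a ha => ?_⟩
  · obtain ⟨h3, h4⟩ := Prod.mk.inj h
    have : ∀ b (hb : g a' = b), e (g a') ⟨a', rfl⟩ = e b ⟨a', hb⟩ := by
      rintro _ rfl
      rfl
    rw [this (g a) h3.symm] at h4
    exact congrArg Subtype.val ((e _).injective h4)
  · exact Prod.ext (h2 a ha).symm (he _ ⟨a, rfl⟩ ha)

lemma exists_emb_avoid [Fintype α] [Fintype κ] [DecidableEq κ] (B : Finset κ)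
    (h : Fintype.card α + B.card ≤ Fintype.card κ) : ∃ e : α ↪ κ, ∀ a, e a ∉ B := by
  obtain ⟨e⟩ : Nonempty (α ↪ {b // b ∉ B}) := Function.Embedding.nonempty_of_card_le (by
    rw [Fintype.card_subtype_compl, Fintype.card_coe]
    omega)
  exact ⟨e.trans (Function.Embedding.subtype _), fun a => (e a).2⟩

/-- placing a system so that the anchors in `S` go to prescribed points -/
lemma place [Fintype α] [DecidableEq α] [Fintype κ] [DecidableEq κ] (an : α → α) (c d : ℕ)
    (hcd : c * d ≤ 8) (hd : 1 ≤ d) (hc : ∀ i, (univ.filter fun a => an a = i).card ≤ c)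
    (S : Finset α) (hS : ∀ a ∈ S, an a = a) (φ : α → κ × Fin 8) (h1 : Set.InjOn φ S)
    (h2 : ∀ b, ((S.image φ).filter fun v => v.1 = b).card ≤ d)
    (hκ : Fintype.card α + S.card ≤ Fintype.card κ) :
    ∃ f : α ↪ κ × Fin 8, (∀ a, (f (an a)).1 = (f a).1 ∨ an (an a) ≠ an a) ∧
      ∀ a ∈ S, f a = φ a := by
  obtain ⟨e, he⟩ := exists_emb_avoid (α := α) (S.image fun a => (φ a).1)
    (le_trans (Nat.add_le_add_left card_image_le _) hκ)
  let g : α → κ := fun i => if i ∈ S then (φ i).1 else e i
  have hg : ∀ b, (univ.filter fun i => g i = b).card ≤ d := by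
    intro b
    by_cases hb : b ∈ S.image fun a => (φ a).1
    · have h3 : ∀ i, g i = b → i ∈ S := fun i hi => by
        by_contra h
        simp only [g, if_neg h] at hi
        exact he i (hi ▸ hb)
      refine le_trans (card_le_card_of_injOn φ (fun i hi => ?_) fun i hi j hj =>
        h1 (h3 i (mem_filter.1 hi).2) (h3 j (mem_filter.1 hj).2)) (h2 b)
      have h4 := (mem_filter.1 hi).2
      have h5 := h3 i h4
      simp only [g, if_pos h5] at h4
      exact mem_filter.2 ⟨mem_image_of_mem _ h5, h4⟩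
    · have h3 : ∀ i, g i = b → e i = b := fun i hi => by
        by_cases h : i ∈ S
        · simp only [g, if_pos h] at hi
          exact absurd (mem_image.2 ⟨i, h, hi⟩) hb
        · simpa only [g, if_neg h] using hi
      exact le_trans (card_le_one.2 fun i hi j hj => e.injective
        ((h3 i (mem_filter.1 hi).2).trans (h3 j (mem_filter.1 hj).2).symm)) hd
  obtain ⟨f, h3, h4⟩ := ext_emb (fun a => g (an a)) (fun b => by
    refine le_trans (card_le_card (t := (univ.filter fun i => g i = b).biUnion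
      fun i => univ.filter fun a => an a = i) fun a ha => ?_)
      ((card_biUnion_le_card_mul _ _ c fun i _ => hc i).trans
        ((Nat.mul_le_mul_right _ (hg b)).trans (by rwa [mul_comm])))
    exact mem_biUnion.2 ⟨an a, by simpa using ha, by simp⟩) S φ h1 fun a ha => by
      simp only [g, hS a ha, if_pos ha]
  refine ⟨f, fun a => ?_, h4⟩
  by_cases h : an (an a) = an a
  · exact Or.inl (by rw [h3, h3, h])
  · exact Or.inr h

lemma card_model (q m : ℕ) : (model (q + 3) (Fin m)).card ≤ 7 * (m * 8) ^ (q + 1) := by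
  classical
  let TT : Finset (Finset (Fin m × Fin 8)) :=
    univ.biUnion fun b : Fin m => powersetCard 3 ({b} ×ˢ univ)
  have h1 : TT.card ≤ m * 56 := (card_biUnion_le_card_mul _ _ 56 fun b _ => by
    rw [card_powersetCard]
    simp [Nat.choose]).trans (by simp)
  have h2 : model (q + 3) (Fin m) ⊆ (TT ×ˢ powersetCard q univ).image fun p => p.1 ∪ p.2 := by
    intro e he
    obtain ⟨h3, T, h4, h5, h6⟩ := mem_model.1 he
    obtain ⟨a, ha⟩ := card_pos.1 (by omega : 0 < T.card)
    refine mem_image.2 ⟨(T, e \ T), mem_product.2 ⟨mem_biUnion.2 ⟨a.1, mem_univ _,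
      mem_powersetCard.2 ⟨fun x hx => mem_product.2 ⟨mem_singleton.2 (h6 x hx a ha), mem_univ _⟩,
        h5⟩⟩,
      mem_powersetCard.2 ⟨subset_univ _, ?_⟩⟩, union_sdiff_of_subset h4⟩
    rw [card_sdiff_of_subset h4]
    omega
  refine (card_le_card h2).trans (card_image_le.trans ?_)
  rw [card_product, card_powersetCard, card_univ, Fintype.card_prod, Fintype.card_fin,
    Fintype.card_fin]
  calc _ ≤ m * 56 * (m * 8) ^ q := Nat.mul_le_mul h1 (Nat.choose_le_pow _ _)
    _ = _ := by ring

/-- few edges leave an `r`-set none of whose `(r-1)`-subsets is covered -/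
lemma exists_free [Fintype V] [DecidableEq V] {r : ℕ} (G : Finset (Finset V))
    (hG : ∀ e ∈ G, e.card = r) (h : r * Fintype.card V * G.card < (Fintype.card V).choose r) :
    ∃ s : Finset V, s.card = r ∧ ∀ u ∈ s, ∀ e ∈ G, ¬s.erase u ⊆ e := by
  by_contra hcon
  push Not at hcon
  have h1 : powersetCard r (univ : Finset V) ⊆
      G.biUnion fun e => (e ×ˢ univ).image fun p : V × V => insert p.2 (e.erase p.1) := by
    intro s hs
    have hs' := (mem_powersetCard.1 hs).2
    obtain ⟨u, hu, e, he, h2⟩ := hcon s hs'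
    have h3 := card_erase_add_one hu
    obtain ⟨w, h4, h5⟩ := exists_mem_notMem_of_card_lt_card (s := s.erase u) (t := e) (by
      rw [hG e he]
      omega)
    refine mem_biUnion.2 ⟨e, he, mem_image.2 ⟨(w, u), by simpa using h4, ?_⟩⟩
    have h6 : s.erase u = e.erase w := eq_of_subset_of_card_le
      (fun x hx => mem_erase.2 ⟨fun e => h5 (e ▸ hx), h2 hx⟩) (by
        have := card_erase_add_one h4
        have := hG e he
        omega)
    rw [← h6, insert_erase hu]
  have h2 := (card_le_card h1).trans (card_biUnion_le_card_mul _ _ (r * Fintype.card V)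
    fun e he => card_image_le.trans (by simp [hG e he]))
  rw [card_powersetCard, card_univ, mul_comm] at h2
  omega

end Pool.Agent.MP_038f7f_co.H11
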