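import Pool.Agent.MP_038f7f_co.h11.Base

/-! The two forbidden hypergraphs, and the sparse saturated hypergraph. -/

set_option autoImplicit false

namespace Pool.Agent.MP_038f7f_co.H11

open Finset Function.Embedding

variable {α β V W κ : Type}

lemma Copy.congr {F : Finset (Finset α)} {G : Finset (Finset V)} {F' : Finset (Finset β)}
    {G' : Finset (Finset W)} (h : Copy F G) (a : β ↪ α) (b : V ↪ W) (ha : ∀ e ∈ F', e.map a ∈ F)
    (hb : ∀ e ∈ G, e.map b ∈ G') : Copy F' G' := by
  obtain ⟨f, hf⟩ := h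
  refine ⟨a.trans (f.trans b), fun e he => ?_⟩
  rw [← map_map, ← map_map]
  exact hb _ (hf _ (ha e he))

/-- saturation for two forbidden hypergraphs -/
def Sat [DecidableEq V] (r : ℕ) (F₁ : Finset (Finset α)) (F₂ : Finset (Finset β))
    (G : Finset (Finset V)) : Prop :=
  (∀ e ∈ G, e.card = r) ∧ ¬Copy F₁ G ∧ ¬Copy F₂ G ∧
    ∀ s : Finset V, s.card = r → s ∉ G → Copy F₁ (insert s G) ∨ Copy F₂ (insert s G)

/-- one class of size `c` and `R` classes of size four -/
abbrev Sh (c R : ℕ) : Type := Fin c ⊕ (Fin R × Fin 4)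

/-- the class of a vertex -/
def clS {c R : ℕ} : Sh c R → Option (Fin R) := Sum.elim (fun _ => none) fun p => some p.1

lemma le_card_fib [Fintype α] {p : α → Prop} [DecidablePred p] {w : ℕ} (g : Fin w → α)
    (hg : Function.Injective g) (h : ∀ i, p (g i)) : w ≤ (univ.filter p).card := by
  have := card_le_card_of_injOn (s := univ) (t := univ.filter p) g
    (fun i _ => mem_filter.2 ⟨mem_univ _, h i⟩) hg.injOn
  rwa [card_univ, Fintype.card_fin] at this

lemma card_clS {c R : ℕ} (hc : 4 ≤ c) (a : Sh c R) :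
    4 ≤ (univ.filter fun b : Sh c R => clS b = clS a).card := by
  rcases a with a | ⟨j, a⟩
  · exact le_card_fib (fun i => Sum.inl (Fin.castLE hc i))
      (fun i i' h => Fin.castLE_injective hc (Sum.inl.inj h)) fun _ => rfl
  · exact le_card_fib (fun i => Sum.inr (j, i))
      (fun i i' h => (Prod.mk.inj (Sum.inr.inj h)).2) fun _ => rfl

lemma card_fst {N : ℕ} (a : Fin N × Fin 8) :
    4 ≤ (univ.filter fun b : Fin N × Fin 8 => b.1 = a.1).card :=
  le_trans (by norm_num) (le_card_fib (w := 8) (fun i => (a.1, i))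
    (fun i i' h => (Prod.mk.inj h).2) fun _ => rfl)

/-- vertices of the first hypergraph -/
abbrev VL (q : ℕ) : Type := Fin (10 * q + 42) × Fin 8

/-- vertices of the second hypergraph -/
abbrev VD (q : ℕ) : Type := Sh 5 (2 * q + 14) ⊕ Sh 4 (2 * q + 6)

/-- the vertices of the transversal edge -/
def trE (q : ℕ) : Fin (q + 3) ↪ VL q :=
  ⟨fun j => (Fin.castLE (by omega) j, 0), fun _ _ h => Fin.castLE_injective _ (Prod.mk.inj h).1⟩

/-- the transversal edge -/
def tr (q : ℕ) : Finset (VL q) := univ.map (trE q)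

lemma card_tr (q : ℕ) : (tr q).card = q + 3 := by simp [tr]

/-- the left part of the special edge -/
def spL (q : ℕ) : Finset (Sh 5 (2 * q + 14)) :=
  insert (Sum.inl 0) (insert (Sum.inl 1) (univ.map
    ⟨fun j : Fin q => Sum.inr (Fin.castLE (by omega) j, 0),
      fun _ _ h => Fin.castLE_injective _ (Prod.mk.inj (Sum.inr.inj h)).1⟩))

lemma card_spL (q : ℕ) : (spL q).card = q + 2 := by
  rw [spL, card_insert_of_notMem (by simp), card_insert_of_notMem (by simp)]
  simp

/-- the special edge -/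
def sp (q : ℕ) : Finset (VD q) := insert (Sum.inr (Sum.inl 0)) ((spL q).map inl)

lemma card_sp (q : ℕ) : (sp q).card = q + 3 := by
  rw [sp, card_insert_of_notMem (by simp), card_map, card_spL]

/-- the first forbidden hypergraph -/
noncomputable def FL (q : ℕ) : Finset (Finset (VL q)) := insert (tr q) (model (q + 3) _)

/-- the second forbidden hypergraph -/
noncomputable def FD (q : ℕ) : Finset (Finset (VD q)) := by
  classical exact univ.filter fun e => e = sp q ∨
    (∃ e', e'.card = q + 3 ∧ Good clS e' ∧ e = e'.map inl) ∨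
    ∃ e', e'.card = q + 3 ∧ Good clS e' ∧ e = e'.map inr

lemma card_FL {q : ℕ} : ∀ e ∈ FL q, e.card = q + 3 := fun e he => by
  rcases mem_insert.1 he with rfl | he
  · exact card_tr q
  · exact (mem_model.1 he).1

lemma mem_FD {q : ℕ} {e : Finset (VD q)} : e ∈ FD q ↔ e = sp q ∨
    (∃ e', e'.card = q + 3 ∧ Good clS e' ∧ e = e'.map inl) ∨
    ∃ e', e'.card = q + 3 ∧ Good clS e' ∧ e = e'.map inr := by
  simp only [FD, mem_filter, mem_univ, true_and]

lemma card_FD {q : ℕ} : ∀ e ∈ FD q, e.card = q + 3 := fun e he => by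
  rcases mem_FD.1 he with rfl | ⟨e, h, -, rfl⟩ | ⟨e, h, -, rfl⟩
  · exact card_sp q
  · rwa [card_map]
  · rwa [card_map]

lemma copy_FL {q : ℕ} {G : Finset (Finset V)} : Copy (FL q) G ↔
    ∃ f : VL q ↪ V, Full (q + 3) G f Prod.fst ∧ (tr q).map f ∈ G := by
  refine exists_congr fun f => ⟨fun h => ⟨fun e h1 h2 => h e (mem_insert_of_mem
    (mem_model.2 ⟨h1, h2⟩)), h _ (mem_insert_self _ _)⟩, fun h e he => ?_⟩
  rcases mem_insert.1 he with rfl | he
  · exact h.2
  · exact h.1 e (mem_model.1 he).1 (mem_model.1 he).2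

lemma copy_FD {q : ℕ} {G : Finset (Finset V)} : Copy (FD q) G ↔
    ∃ f : VD q ↪ V, Full (q + 3) G (inl.trans f) clS ∧ Full (q + 3) G (inr.trans f) clS ∧
      (sp q).map f ∈ G := by
  refine exists_congr fun f => ⟨fun h => ⟨fun e h1 h2 => ?_, fun e h1 h2 => ?_,
    h _ (mem_FD.2 (Or.inl rfl))⟩, fun h e he => ?_⟩
  · rw [← map_map]
    exact h _ (mem_FD.2 (Or.inr (Or.inl ⟨e, h1, h2, rfl⟩)))
  · rw [← map_map]
    exact h _ (mem_FD.2 (Or.inr (Or.inr ⟨e, h1, h2, rfl⟩)))
  · rcases mem_FD.1 he with rfl | ⟨e, h1, h2, rfl⟩ | ⟨e, h1, h2, rfl⟩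
    · exact h.2.2
    · rw [map_map]
      exact h.1 e h1 h2
    · rw [map_map]
      exact h.2.1 e h1 h2

/-- anchors in the second hypergraph -/
def an {q : ℕ} : VD q → VD q :=
  Sum.map (Sum.map (fun a => if a = 1 ∨ a = 4 then 1 else 0) fun p => (p.1, 0))
    (Sum.map (fun _ => 0) fun p => (p.1, 0))

lemma an_an {q : ℕ} (a : VD q) : an (an a) = an a := by
  rcases a with (a | a) | (a | a)
  · fin_cases a <;> rfl
  all_goals rfl

lemma an_sp {q : ℕ} : ∀ a ∈ sp q, an a = a := by
  intro a ha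
  simp only [sp, spL, mem_insert, mem_map, mem_univ, true_and, inl_apply, coeFn_mk] at ha
  rcases ha with rfl | ⟨a, rfl | rfl | ⟨j, rfl⟩, rfl⟩ <;> rfl

lemma card_an_le {q : ℕ} (i : VD q) : (univ.filter fun a => an a = i).card ≤ 4 := by
  refine le_trans (card_le_card_of_injOn (t := (univ : Finset (Fin 4)))
    (Sum.elim (Sum.elim ![0, 0, 1, 2, 1] Prod.snd) (Sum.elim id Prod.snd))
    (fun _ _ => mem_univ _) fun a ha b hb e => ?_) (by simp)
  have h := (mem_filter.1 ha).2.trans (mem_filter.1 hb).2.symm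
  clear ha hb
  rcases a with (a | a) | (a | a) <;> rcases b with (b | b) | (b | b) <;>
    simp only [an, Sum.map_inl, Sum.map_inr, Sum.inl.injEq, Sum.inr.injEq, reduceCtorEq,
      Sum.elim_inl, Sum.elim_inr, Prod.mk.injEq, and_true, id] at h e ⊢
  · revert a b
    decide
  · exact Prod.ext h e
  · exact e
  · exact Prod.ext h e

lemma card_an_ge {q : ℕ} : ∀ i ∈ sp q, 4 ≤ (univ.filter fun a => an a = i).card +
    (if i = Sum.inl (Sum.inl 0) then 1 else 0) + if i = Sum.inl (Sum.inl 1) then 2 else 0 := by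
  intro a ha
  simp only [sp, spL, mem_insert, mem_map, mem_univ, true_and, inl_apply, coeFn_mk] at ha
  rcases ha with rfl | ⟨a, rfl | rfl | ⟨j, rfl⟩, rfl⟩
  · exact le_add_right (le_add_right (le_card_fib (fun i => Sum.inr (Sum.inl i))
      (fun i i' h => Sum.inl.inj (Sum.inr.inj h)) fun _ => rfl))
  · have := le_card_fib (p := fun a : VD q => an a = Sum.inl (Sum.inl 0))
      (fun i : Fin 3 => Sum.inl (Sum.inl (![0, 2, 3] i)))
      (fun i i' h => by
        have := Sum.inl.inj (Sum.inl.inj h)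
        clear h
        revert i i'
        decide) fun i => by fin_cases i <;> rfl
    rw [if_pos rfl]
    omega
  · have := le_card_fib (p := fun a : VD q => an a = Sum.inl (Sum.inl 1))
      (fun i : Fin 2 => Sum.inl (Sum.inl (![1, 4] i)))
      (fun i i' h => by
        have := Sum.inl.inj (Sum.inl.inj h)
        clear h
        revert i i'
        decide) fun i => by fin_cases i <;> rfl
    rw [if_pos rfl]
    omega
  · exact le_add_right (le_add_right (le_card_fib (fun i => Sum.inl (Sum.inr (_, i)))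
      (fun i i' h => (Prod.mk.inj (Sum.inr.inj (Sum.inl.inj h))).2) fun _ => rfl))

lemma free_FL (q : ℕ) [Fintype κ] : ¬Copy (FL q) (model (q + 3) κ) := by
  rw [copy_FL]
  rintro ⟨f, h1, h2⟩
  obtain ⟨T, h3, h4, h5⟩ := nogood (f := f) (an := fun a => (a.1, 0))
    (fun a => force h1 (by simp; omega) card_fst rfl) (mem_model.1 h2).2
  have := (card_nsmul_le_sum T _ 8 fun i hi => ?_).trans h5
  · simp [h4] at this
  · obtain ⟨j, -, rfl⟩ := mem_map.1 (h3 hi)
    exact le_card_fib (fun i => ((trE q j).1, i)) (fun i i' h => (Prod.mk.inj h).2) fun _ => rfl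

lemma free_FD (q : ℕ) [Fintype κ] : ¬Copy (FD q) (model (q + 3) κ) := by
  rw [copy_FD]
  rintro ⟨f, h1, h1', h2⟩
  obtain ⟨T, h3, h4, h5⟩ := nogood (f := f) (an := an) (by
    rintro (a | a)
    · refine force h1 (by simp; omega) (card_clS (by norm_num)) (b := a) ?_
      rcases a with a | a <;> rfl
    · refine force h1' (by simp; omega) (card_clS le_rfl) (b := a) ?_
      rcases a with a | a <;> rfl) (mem_model.1 h2).2
  have := (card_nsmul_le_sum T _ 4 fun i hi => card_an_ge i (h3 hi))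
  rw [sum_add_distrib, sum_add_distrib, sum_ite_eq', sum_ite_eq', h4] at this
  split_ifs at this <;> simp at this <;> omega

lemma exists_bij [DecidableEq α] [DecidableEq β] [Nonempty β] {S : Finset α} {s : Finset β}
    (h : S.card = s.card) {x y : α} {u v : β} (hx : x ∈ S) (hy : y ∈ S) (hu : u ∈ s) (hv : v ∈ s)
    (h1 : x ≠ y) (h2 : u ≠ v) :
    ∃ φ : α → β, Set.InjOn φ S ∧ S.image φ = s ∧ φ x = u ∧ φ y = v := by
  let e := equivOfCardEq h
  obtain ⟨τ, hτ⟩ := Equiv.Perm.exists_extending_pair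
    (f := fun b : Bool => e (cond b ⟨x, hx⟩ ⟨y, hy⟩)) (g := fun b => cond b ⟨u, hu⟩ ⟨v, hv⟩)
    (by rintro (_ | _) (_ | _) h <;> simp_all [eq_comm])
    (by rintro (_ | _) (_ | _) h <;> simp_all [eq_comm])
  have hi : Set.InjOn (fun a => if h : a ∈ S then (τ (e ⟨a, h⟩) : β) else u) S := by
    intro a ha b hb hab
    simp only [dif_pos (mem_coe.1 ha), dif_pos (mem_coe.1 hb)] at hab
    exact congrArg Subtype.val (e.injective (τ.injective (Subtype.ext hab)))
  refine ⟨_, hi, eq_of_subset_of_card_le (fun b hb => ?_) (by rw [card_image_of_injOn hi, h]),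
    ?_, ?_⟩
  · obtain ⟨a, ha, rfl⟩ := mem_image.1 hb
    simp only [dif_pos ha]
    exact Subtype.property _
  · simp only [dif_pos hx]
    exact congrArg Subtype.val (hτ true)
  · simp only [dif_pos hy]
    exact congrArg Subtype.val (hτ false)

lemma map_eq_of [DecidableEq β] {S : Finset α} {f : α ↪ β} {φ : α → β} (h : ∀ a ∈ S, f a = φ a) :
    S.map f = S.image φ := by
  rw [map_eq_image]
  exact image_congr h

lemma full_model {ι : Type} {r : ℕ} [Fintype κ] [DecidableEq κ] {f : α ↪ κ × Fin 8} {cl : α → ι}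
    (h : ∀ a b, cl a = cl b → (f a).1 = (f b).1) (s : Finset (κ × Fin 8)) :
    Full r (insert s (model r κ)) f cl := fun e h1 h2 =>
  mem_insert_of_mem (mem_model.2 ⟨by rwa [card_map], h2.map f h⟩)

theorem upper (q : ℕ) [Fintype κ] [DecidableEq κ] (hκ : 81 * q + 339 ≤ Fintype.card κ) :
    Sat (q + 3) (FL q) (FD q) (model (q + 3) κ) := by
  refine ⟨fun e he => (mem_model.1 he).1, free_FL q, free_FD q, fun s hs hs' => ?_⟩
  obtain ⟨u₀, hu₀, v₀, hv₀, huv⟩ := one_lt_card.1 (by omega : 1 < s.card)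
  have : Nonempty (κ × Fin 8) := ⟨u₀⟩
  by_cases h : ∃ u ∈ s, ∃ v ∈ s, u ≠ v ∧ u.1 = v.1
  · obtain ⟨u, hu, v, hv, h1, h2⟩ := h
    obtain ⟨φ, h3, h4, h5, h6⟩ := exists_bij ((card_sp q).trans hs.symm)
      (x := Sum.inl (Sum.inl 0)) (y := Sum.inl (Sum.inl 1)) (by simp [sp, spL])
      (by simp [sp, spL]) hu hv (by simp) h1
    obtain ⟨f, h7, h8⟩ := place an 4 2 le_rfl one_le_two card_an_le (sp q) an_sp φ h3
      (fun b => by
        rw [h4]
        by_contra hc
        obtain ⟨T, h9, h10⟩ := exists_subset_card_eq (s := s.filter fun v => v.1 = b) (n := 3)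
          (by omega)
        exact hs' (mem_model.2 ⟨hs, T, h9.trans (filter_subset _ _), h10, fun a ha b hb =>
          (mem_filter.1 (h9 ha)).2.trans (mem_filter.1 (h9 hb)).2.symm⟩))
      (by rw [card_sp]; simp; omega)
    have h9 : ∀ a, (f (an a)).1 = (f a).1 := fun a => (h7 a).resolve_right fun h => h (an_an a)
    have h10 : ∀ a b, an a = an b → (f a).1 = (f b).1 := fun a b e => by rw [← h9 a, e, h9]
    have h11 : ∀ a, (f (Sum.inl (Sum.inl a))).1 = u.1 := fun a => by
      rw [← h9]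
      by_cases ha : a = 1 ∨ a = 4
      · simp only [an, Sum.map_inl, if_pos ha]
        rw [h8 _ (by simp [sp, spL]), h6, h2]
      · simp only [an, Sum.map_inl, if_neg ha]
        rw [h8 _ (by simp [sp, spL]), h5]
    refine Or.inr (copy_FD.2 ⟨f, full_model ?_ s, full_model ?_ s, ?_⟩)
    · rintro (a | a) (b | b) e
      · exact (h11 a).trans (h11 b).symm
      · cases e
      · cases e
      · exact h10 _ _ (by simp only [an, inl_apply, Sum.map_inl, Sum.map_inr, Option.some.inj e])
    · rintro (a | a) (b | b) e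
      · exact h10 _ _ rfl
      · cases e
      · cases e
      · exact h10 _ _ (by simp only [an, inr_apply, Sum.map_inr, Option.some.inj e])
    · rw [map_eq_of h8, h4]
      exact mem_insert_self _ _
  · obtain ⟨φ, h3, h4, -⟩ := exists_bij ((card_tr q).trans hs.symm)
      (x := trE q 0) (y := trE q 1) (mem_map_of_mem _ (mem_univ _))
      (mem_map_of_mem _ (mem_univ _)) hu₀ hv₀ ((trE q).injective.ne (by simp)) huv
    obtain ⟨f, h7, h8⟩ := place (fun a : VL q => (a.1, 0)) 8 1 le_rfl le_rfl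
      (fun i => le_trans (card_le_card fun a ha => mem_filter.2 ⟨mem_univ _,
        congrArg Prod.fst (mem_filter.1 ha).2⟩) (card_fib (Function.Embedding.refl _) i.1))
      (tr q) (fun a ha => by
        obtain ⟨j, -, rfl⟩ := mem_map.1 ha
        rfl) φ h3
      (fun b => by
        rw [h4]
        refine card_le_one.2 fun u hu v hv => by_contra fun hne => h ⟨u, (mem_filter.1 hu).1, v,
          (mem_filter.1 hv).1, hne, (mem_filter.1 hu).2.trans (mem_filter.1 hv).2.symm⟩)
      (by rw [card_tr]; simp; omega)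
    have h9 : ∀ a, (f (a.1, 0)).1 = (f a).1 := fun a => (h7 a).resolve_right fun h => h rfl
    refine Or.inl (copy_FL.2 ⟨f, full_model (fun a b e => by rw [← h9 a, e, h9]) s, ?_⟩)
    rw [map_eq_of h8, h4]
    exact mem_insert_self _ _

end Pool.Agent.MP_038f7f_co.H11
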