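import Pool.Agent.MP_038f7f_co.h11.Defs

/-! A sparse saturated hypergraph is partitioned into blocks of size eight. -/

set_option autoImplicit false

namespace Pool.Agent.MP_038f7f_co.H11

open Finset Function.Embedding

variable {α β γ ι V W : Type}

lemma exists_hit [Nonempty β] [DecidableEq γ] (s : Finset ι) (x : ι → V) {f : β → V}
    (hf : Function.Injective f) (h : β → γ) :
    ∃ B : Finset γ, B.card ≤ s.card ∧ ∀ i ∈ s, ∀ b, x i = f b → h b ∈ B :=
  ⟨s.image fun i => h (Function.invFun f (x i)), card_image_le, fun i hi b e =>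
    mem_image.2 ⟨i, hi, by rw [e, Function.leftInverse_invFun hf]⟩⟩

/-- a system of classes inside a system of blocks -/
def lam {c R N : ℕ} (p : Fin c ↪ Fin 8) (i : Fin N) (e : Fin R ↪ Fin N) (he : ∀ j, e j ≠ i) :
    Sh c R ↪ Fin N × Fin 8 :=
  ⟨Sum.elim (fun a => (i, p a)) fun x => (e x.1, Fin.castLE (by norm_num) x.2), by
    rintro (a | a) (b | b) h <;> obtain ⟨h1, h2⟩ := Prod.mk.inj h
    · rw [p.injective h2]
    · exact absurd h1.symm (he _)
    · exact absurd h1 (he _)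
    · rw [Prod.ext (e.injective h1) (Fin.castLE_injective _ h2)]⟩

lemma lam_cl {c R N : ℕ} (p : Fin c ↪ Fin 8) (i : Fin N) (e : Fin R ↪ Fin N) (he : ∀ j, e j ≠ i)
    (a b : Sh c R) (h : clS a = clS b) : (lam p i e he a).1 = (lam p i e he b).1 := by
  rcases a with a | a <;> rcases b with b | b
  · rfl
  · cases h
  · cases h
  · exact congrArg e (Option.some.inj h)

/-- a class that meets a block and leaves it creates the second hypergraph -/
lemma overlap {q c : ℕ} {G : Finset (Finset V)} {σ : VL q ↪ V} (hσ : Full (q + 3) G σ Prod.fst)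
    {τ : Sh c (2 * q + 14) ↪ V} (hτ : Full (q + 3) G τ clS) (hc : 4 ≤ c) {a₀ a₁ : Fin c}
    {i : Fin (10 * q + 42)} {b₀ : Fin 8} (h0 : τ (Sum.inl a₀) = σ (i, b₀))
    (h1 : ∀ b, τ (Sum.inl a₁) ≠ σ (i, b)) : Copy (FD q) G := by
  classical
  have h01 : a₀ ≠ a₁ := fun e => h1 b₀ (e ▸ h0)
  obtain ⟨π, hπ⟩ := Equiv.Perm.exists_extending_pair
    (f := fun b : Bool => Fin.castLE hc (cond b 0 1)) (g := fun b => cond b a₀ a₁)
    (by rintro (_ | _) (_ | _) h <;> simp_all) (by rintro (_ | _) (_ | _) h <;> simp_all)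
  let g : Fin 4 ↪ Fin c := (Fin.castLEEmb hc).trans π.toEmbedding
  have g0 : g 0 = a₀ := hπ true
  have g1 : g 1 = a₁ := hπ false
  obtain ⟨B, hB1, hB2⟩ := exists_hit univ (fun b => σ (i, b)) (f := fun x => τ (Sum.inr x))
    (τ.injective.comp Sum.inr_injective) Prod.fst
  obtain ⟨e, he⟩ := exists_emb_avoid (α := Fin (2 * q + 6)) B (by simp at hB1 ⊢; omega)
  let fB : Sh 4 (2 * q + 6) ↪ V :=
    (g.sumMap (e.prodMap (Function.Embedding.refl _))).trans τ
  have hfB : Full (q + 3) G fB clS := hτ.comp _ (by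
    rintro (a | a) (b | b) h
    · rfl
    · cases h
    · cases h
    · exact congrArg (fun j => some (e j)) (Option.some.inj h))
  obtain ⟨U, hU1, hU2⟩ := exists_hit (univ.erase 1) (fun a => τ (Sum.inl (g a)))
    (f := fun b => σ (i, b)) (fun b b' h => (Prod.mk.inj (σ.injective h)).2) id
  obtain ⟨p, hp⟩ := exists_emb_avoid (α := Fin 5) U (by simp at hU1 ⊢; omega)
  obtain ⟨B', hB1', hB2'⟩ := exists_hit univ fB σ.injective Prod.fst
  obtain ⟨e', he'⟩ := exists_emb_avoid (α := Fin (2 * q + 14)) B' (by simp at hB1' ⊢; omega)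
  have h2 : fB (Sum.inl 0) = σ (i, b₀) := (congrArg (fun a => τ (Sum.inl a)) g0).trans h0
  have h3 : ∀ j, e' j ≠ i := fun j h => he' j (h ▸ hB2' _ (mem_univ _) _ h2)
  let fA := (lam p i e' h3).trans σ
  have h4 : ∀ a b, fA a ≠ fB b := by
    rintro (a | a) b h
    · rcases b with b | b
      · by_cases hb : b = 1
        · subst hb
          exact h1 _ ((congrArg (fun a => τ (Sum.inl a)) g1).symm.trans h.symm)
        · exact hp a (hU2 b (mem_erase.2 ⟨hb, mem_univ _⟩) _ h.symm)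
      · exact he b.1 (hB2 _ (mem_univ _) (e b.1, b.2) h)
    · exact he' a.1 (hB2' b (mem_univ _) _ h.symm)
  let f : VD q ↪ V := ⟨Sum.elim fA fB, fA.injective.sumElim fB.injective h4⟩
  refine copy_FD.2 ⟨f, hσ.comp _ (lam_cl p i e' h3), hfB, ?_⟩
  have h5 : (sp q).map f = (insert (i, b₀) ((spL q).map (lam p i e' h3))).map σ := by
    rw [sp, map_insert, map_insert, map_map, map_map, ← h2]
    rfl
  have h6 : b₀ ∈ U := hU2 0 (by simp) _ h2
  have h7 : ∀ a, (i, b₀) ≠ (i, p a) := fun a h => hp a (by rwa [← (Prod.mk.inj h).2])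
  rw [h5]
  refine hσ _ (by rw [← card_map σ, ← h5, card_map, card_sp])
    ⟨{(i, b₀), (i, p 0), (i, p 1)}, insert_subset_insert _ ?_, card_eq_three.2
      ⟨_, _, _, h7 0, h7 1, fun h => absurd (p.injective (Prod.mk.inj h).2) (by decide), rfl⟩,
      by simp⟩
  rw [insert_subset_iff, singleton_subset_iff]
  exact ⟨mem_map.2 ⟨Sum.inl 0, by simp [spL], rfl⟩, mem_map.2 ⟨Sum.inl 1, by simp [spL], rfl⟩⟩

lemma Full.of_insert [Fintype α] [DecidableEq α] [DecidableEq ι] [DecidableEq V] {r : ℕ}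
    {G : Finset (Finset V)} {s : Finset V} {f : α ↪ V} {cl : α → ι}
    (h : Full r (insert s G) f cl) (hc : ∀ a, 4 ≤ (univ.filter fun b => cl b = cl a).card)
    (hr : r < Fintype.card α) {v : V} (hv : v ∈ s) (hu : ∀ e ∈ G, ¬s.erase v ⊆ e) :
    Full r G f cl := by
  intro e h1 h2
  refine (mem_insert.1 (h e h1 h2)).resolve_left ?_
  rintro rfl
  obtain ⟨u, h3, rfl⟩ := mem_map.1 hv
  obtain ⟨e', h4, h5, h6, h7⟩ := h2.swap hc (by rwa [h1]) h3
  refine hu _ ((mem_insert.1 (h e' (h4.trans h1) h5)).resolve_left fun h =>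
    h6 (map_injective f h)) ?_
  rw [← map_erase]
  exact map_subset_map.2 h7

/-- a new edge through an uncovered set is one of the two special edges -/
lemma step [DecidableEq V] {q : ℕ} {G : Finset (Finset V)} (hG : Sat (q + 3) (FL q) (FD q) G)
    {s : Finset V} (hs : s.card = q + 3) {v : V} (hv : v ∈ s) (hu : ∀ e ∈ G, ¬s.erase v ⊆ e) :
    (∃ σ : VL q ↪ V, Full (q + 3) G σ Prod.fst ∧ (tr q).map σ = s) ∨
    ∃ f : VD q ↪ V, Full (q + 3) G (inl.trans f) clS ∧ (sp q).map f = s := by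
  refine (hG.2.2.2 s hs fun h => hu s h (erase_subset _ _)).imp (fun h => ?_) fun h => ?_
  · obtain ⟨f, h1, h2⟩ := copy_FL.1 h
    have h3 := h1.of_insert card_fst (by simp; omega) hv hu
    exact ⟨f, h3, (mem_insert.1 h2).resolve_right fun h => hG.2.1 (copy_FL.2 ⟨f, h3, h⟩)⟩
  · obtain ⟨f, h1, h1', h2⟩ := copy_FD.1 h
    have h3 := h1.of_insert (card_clS (by norm_num)) (by simp; omega) hv hu
    have h4 := h1'.of_insert (card_clS le_rfl) (by simp; omega) hv hu
    exact ⟨f, h3, (mem_insert.1 h2).resolve_right fun h => hG.2.2.1 (copy_FD.2 ⟨f, h3, h4, h⟩)⟩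

lemma dvd_of_cover [Fintype V] {q : ℕ} {G : Finset (Finset V)} (hG : ¬Copy (FD q) G)
    (h : ∀ v, ∃ σ : VL q ↪ V, Full (q + 3) G σ Prod.fst ∧ ∃ a, σ a = v) :
    8 ∣ Fintype.card V := by
  classical
  let BB : Finset (Finset V) := univ.filter fun B => ∃ σ : VL q ↪ V,
    Full (q + 3) G σ Prod.fst ∧ ∃ i, B = univ.image fun b => σ (i, b)
  have h1 : ∀ B ∈ BB, B.card = 8 := fun B hB => by
    obtain ⟨σ, -, i, rfl⟩ := (mem_filter.1 hB).2
    rw [card_image_of_injective _ fun b b' h => (Prod.mk.inj (σ.injective h)).2]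
    simp
  have h2 : (univ : Finset V) = BB.biUnion id := by
    refine (eq_univ_of_forall fun v => ?_).symm
    obtain ⟨σ, h3, a, rfl⟩ := h v
    exact mem_biUnion.2 ⟨_, mem_filter.2 ⟨mem_univ _, σ, h3, a.1, rfl⟩,
      mem_image.2 ⟨a.2, mem_univ _, rfl⟩⟩
  rw [← card_univ, h2, card_biUnion]
  · exact dvd_sum fun B hB => (h1 B hB).symm.dvd
  intro B hB B' hB' hne
  refine disjoint_left.2 fun v hv hv' => hne (eq_of_subset_of_card_le (fun w hw => ?_)
    ((h1 B hB).trans (h1 B' hB').symm).le).symm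
  obtain ⟨σ, h3, i, rfl⟩ := (mem_filter.1 hB).2
  obtain ⟨σ', h4, i', rfl⟩ := (mem_filter.1 hB').2
  obtain ⟨b₀, -, rfl⟩ := mem_image.1 hv
  obtain ⟨a₀, -, h5⟩ := mem_image.1 hv'
  obtain ⟨a₁, -, rfl⟩ := mem_image.1 hw
  by_contra h6
  obtain ⟨e, he⟩ := exists_emb_avoid (α := Fin (2 * q + 14)) {i'} (by simp; omega)
  exact hG (overlap h3 (h4.comp _ (lam_cl (Function.Embedding.refl _) i' e fun j h =>
    he j (mem_singleton.2 h))) (by norm_num) (a₀ := a₀) (a₁ := a₁) h5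
      fun b h => h6 (mem_image.2 ⟨b, mem_univ _, h.symm⟩))

theorem lower [Fintype V] [DecidableEq V] {q : ℕ} {G : Finset (Finset V)}
    (hG : Sat (q + 3) (FL q) (FD q) G) (h8 : ¬8 ∣ Fintype.card V) :
    (Fintype.card V).choose (q + 3) ≤ (q + 3) * Fintype.card V * G.card := by
  by_contra hcon
  obtain ⟨s, hs, hf⟩ := exists_free G hG.1 (not_le.1 hcon)
  obtain ⟨u, hu⟩ := card_pos.1 (by omega : 0 < s.card)
  obtain ⟨σ, h1, rfl⟩ | ⟨f, h1, rfl⟩ := step hG hs hu (hf u hu)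
  swap
  · refine hf _ (mem_map_of_mem f (mem_insert_self _ _)) _ (h1 (insert (Sum.inl 2) (spL q))
      (by rw [card_insert_of_notMem (by simp [spL]), card_spL])
      ⟨{Sum.inl 2, Sum.inl 0, Sum.inl 1}, insert_subset_insert _ (insert_subset_insert _
        (singleton_subset_iff.2 (mem_insert_self _ _))), card_eq_three.2
          ⟨_, _, _, by simp, by simp, by simp, rfl⟩, by simp [clS]⟩) ?_
    rw [← map_erase, ← map_map, sp]
    exact map_subset_map.2 ((erase_insert_subset _ _).trans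
      (map_subset_map.2 (subset_insert _ _)))
  refine h8 (dvd_of_cover hG.2.2.1 fun v => ?_)
  by_contra hv
  have h2 : ∀ a, σ a ≠ v := fun a h => hv ⟨σ, h1, a, h⟩
  have h3 : v ∉ ((tr q).map σ).erase u := fun h => by
    obtain ⟨a, -, h⟩ := mem_map.1 (mem_of_mem_erase h)
    exact h2 a h
  obtain ⟨σ', h4, h5⟩ | ⟨f, h4, h5⟩ := step hG (s := insert v (((tr q).map σ).erase u))
    (by rw [card_insert_of_notMem h3, card_erase_add_one hu, hs]) (mem_insert_self _ _)
    (by rw [erase_insert h3]; exact hf u hu)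
  · obtain ⟨a, -, h⟩ := mem_map.1 (h5 ▸ mem_insert_self v _ : v ∈ (tr q).map σ')
    exact hv ⟨σ', h4, a, h⟩
  have key : ∀ a : Fin 5, Sum.inl (Sum.inl a) ∈ sp q → f (Sum.inl (Sum.inl a)) = v ∨
      ∃ i, f (Sum.inl (Sum.inl a)) = σ (i, 0) := fun a ha => by
    refine (mem_insert.1 (h5 ▸ mem_map_of_mem f ha)).imp_right fun h => ?_
    obtain ⟨x, h6, h7⟩ := mem_map.1 (mem_of_mem_erase h)
    obtain ⟨j, -, rfl⟩ := mem_map.1 h6
    exact ⟨_, h7.symm⟩
  have fin : ∀ a₀ a₁ : Fin 5, a₀ ≠ a₁ → Sum.inl (Sum.inl a₁) ∈ sp q →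
      ¬∃ i, f (Sum.inl (Sum.inl a₀)) = σ (i, 0) := by
    rintro a₀ a₁ h6 h7 ⟨i, h9⟩
    refine hG.2.2.1 (overlap h1 h4 (by norm_num) (a₀ := a₀) (a₁ := a₁) h9 fun b h => ?_)
    obtain h10 | ⟨i', h10⟩ := key a₁ h7
    · exact h2 _ (h.symm.trans h10)
    · obtain ⟨rfl, -⟩ := Prod.mk.inj (σ.injective (h10.symm.trans h))
      exact h6 (Sum.inl.inj (Sum.inl.inj (f.injective (h9.trans h10.symm))))
  have m0 : Sum.inl (Sum.inl 0) ∈ sp q := by simp [sp, spL]
  have m1 : Sum.inl (Sum.inl 1) ∈ sp q := by simp [sp, spL]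
  have := f.injective (((key 0 m0).resolve_right (fin 0 1 (by decide) m1)).trans
    ((key 1 m1).resolve_right (fin 1 0 (by decide) m0)).symm)
  simp at this

/-- transport along a bijection -/
noncomputable def tp (ε : α ≃ β) (F : Finset (Finset α)) : Finset (Finset β) :=
  F.map ε.finsetCongr.toEmbedding

lemma mem_tp {ε : α ≃ β} {F : Finset (Finset α)} {e : Finset β} :
    e ∈ tp ε F ↔ e.map ε.symm.toEmbedding ∈ F := by
  rw [tp, mem_map_equiv]
  rfl

lemma map_mem_tp {ε : α ≃ β} {F : Finset (Finset α)} {e : Finset α} (h : e ∈ F) :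
    e.map ε.toEmbedding ∈ tp ε F := mem_map_of_mem _ h

lemma card_tp {ε : α ≃ β} {F : Finset (Finset α)} {r : ℕ} (h : ∀ e ∈ F, e.card = r) :
    ∀ e ∈ tp ε F, e.card = r := fun e he => by
  rw [← h _ (mem_tp.1 he), card_map]

lemma copy_tp (ε : α ≃ β) {F : Finset (Finset α)} {G : Finset (Finset V)} :
    Copy (tp ε F) G ↔ Copy F G :=
  ⟨fun h => h.congr ε.toEmbedding (Function.Embedding.refl _) (fun _ => map_mem_tp)
    fun e he => by rwa [map_refl], fun h => h.congr ε.symm.toEmbedding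
      (Function.Embedding.refl _) (fun _ => mem_tp.1) fun e he => by rwa [map_refl]⟩

lemma sat_tp [DecidableEq V] {α' β' : Type} (ε : α ≃ α') (ε' : β ≃ β') {r : ℕ}
    {F₁ : Finset (Finset α)} {F₂ : Finset (Finset β)} {G : Finset (Finset V)} :
    Sat r (tp ε F₁) (tp ε' F₂) G ↔ Sat r F₁ F₂ G := by
  simp only [Sat, copy_tp]

lemma Sat.tp [DecidableEq V] [DecidableEq W] (ε : V ≃ W) {r : ℕ} {F₁ : Finset (Finset α)}
    {F₂ : Finset (Finset β)} {G : Finset (Finset V)} (h : Sat r F₁ F₂ G) :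
    Sat r F₁ F₂ (tp ε G) := by
  have k1 : ∀ {γ : Type} {F : Finset (Finset γ)}, Copy F (H11.tp ε G) → Copy F G := fun h =>
    h.congr (Function.Embedding.refl _) ε.symm.toEmbedding (fun e he => by rwa [map_refl])
      fun _ => mem_tp.1
  refine ⟨card_tp h.1, fun k => h.2.1 (k1 k), fun k => h.2.2.1 (k1 k), fun s hs hs' => ?_⟩
  have k2 : ∀ {γ : Type} {F : Finset (Finset γ)}, Copy F (insert (s.map ε.symm.toEmbedding) G) →
      Copy F (insert s (H11.tp ε G)) := fun h =>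
    h.congr (Function.Embedding.refl _) ε.toEmbedding (fun e he => by rwa [map_refl])
      fun e he => by
        rcases mem_insert.1 he with rfl | he
        · simp [map_map]
        · exact mem_insert_of_mem (map_mem_tp he)
  exact (h.2.2.2 _ (by rwa [card_map]) fun k => hs' (mem_tp.2 k)).imp k2 k2

theorem main (r : ℕ) (hr : 3 ≤ r) : ∃ (m₁ m₂ n₀ : ℕ) (F₁ : Finset (Finset (Fin m₁)))
    (F₂ : Finset (Finset (Fin m₂))), (∀ e ∈ F₁, e.card = r) ∧ (∀ e ∈ F₂, e.card = r) ∧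
    (∀ n, n₀ ≤ n → 8 ∣ n → ∃ G : Finset (Finset (Fin n)), Sat r F₁ F₂ G ∧
      G.card ≤ 7 * n ^ (r - 2)) ∧
    ∀ n, ¬8 ∣ n → ∀ G : Finset (Finset (Fin n)), Sat r F₁ F₂ G →
      n.choose r ≤ r * n * G.card := by
  obtain ⟨q, rfl⟩ : ∃ q, r = q + 3 := ⟨r - 3, by omega⟩
  refine ⟨_, _, (81 * q + 339) * 8, tp (Fintype.equivFin _) (FL q), tp (Fintype.equivFin _) (FD q),
    card_tp card_FL, card_tp card_FD, fun n h1 h2 => ?_, fun n h1 G hG => ?_⟩
  · obtain ⟨m, rfl⟩ : ∃ m, n = m * 8 := exists_eq_mul_left_of_dvd h2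
    refine ⟨_, (sat_tp _ _).2 ((upper q (κ := Fin m) (by
      rw [Fintype.card_fin]
      exact Nat.le_of_mul_le_mul_right h1 (by norm_num))).tp finProdFinEquiv), ?_⟩
    rw [tp, card_map]
    exact card_model q m
  · simpa using lower ((sat_tp _ _).1 hG) (by simpa using h1)

end Pool.Agent.MP_038f7f_co.H11
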